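import Mathlib
import Pool.Agent.H7CubicTwo

/-!
The odd number `k = 3 * 48289258637582268131593 ^ 2` is not a Sierpinski number, but no Fermat
number has a prime factor of the form `k * 2 ^ n + 1`.
-/

namespace Pool.Agent.Results.MP_74da6d_nt.CubicCover

/-- fast modular exponentiation with fuel -/
def pm (m : ℕ) : ℕ → ℕ → ℕ → ℕ
  | 0, _, _ => 1
  | (fuel+1), a, e => if e % 2 = 1 then (a * pm m fuel (a * a % m) (e / 2)) % m
      else pm m fuel (a * a % m) (e / 2) % m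

lemma pm_spec (m : ℕ) : ∀ fuel a e : ℕ, e < 2 ^ fuel → pm m fuel a e ≡ a ^ e [MOD m] := by
  intro fuel
  induction fuel with
  | zero =>
    intro a e he
    have : e = 0 := by simpa using he
    subst this
    simp [pm, Nat.ModEq]
  | succ fuel ih =>
    intro a e he
    have he2 : e / 2 < 2 ^ fuel := by
      rw [pow_succ] at he
      omega
    have h1 := ih (a * a % m) (e / 2) he2
    have h2 : (a * a % m) ^ (e / 2) ≡ (a * a) ^ (e / 2) [MOD m] :=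
      (Nat.mod_modEq _ _).pow _
    have h3 := h1.trans h2
    rw [pm]
    split_ifs with h
    · refine (Nat.mod_modEq _ _).trans ?_
      have : a ^ e = a * (a * a) ^ (e / 2) := by
        conv_lhs => rw [← Nat.div_add_mod e 2, h]
        rw [pow_add, pow_mul, pow_one, mul_comm, sq]
      rw [this]
      exact h3.mul_left a
    · refine (Nat.mod_modEq _ _).trans ?_
      have h0 : e % 2 = 0 := by omega
      have : a ^ e = (a * a) ^ (e / 2) := by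
        conv_lhs => rw [← Nat.div_add_mod e 2, h0]
        rw [add_zero, pow_mul, sq]
      rw [this]
      exact h3

/-- A form of the theorem of Proth. -/
lemma proth (k n a : ℕ) (hn : 1 ≤ n) (hk : k < 2 ^ n) (hk0 : 0 < k)
    (h : (k * 2 ^ n + 1) ∣ a ^ (k * 2 ^ (n - 1)) + 1) : (k * 2 ^ n + 1).Prime := by
  set p := k * 2 ^ n + 1 with hp
  have hp1 : 1 < p := by
    have : 0 < k * 2 ^ n := by positivity
    omega
  have hpodd : ¬ 2 ∣ p := by
    have : 2 ∣ k * 2 ^ n := Dvd.dvd.mul_left (dvd_pow_self 2 (by omega)) k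
    omega
  by_contra hnp
  set r := p.minFac with hr
  have hrp : r.Prime := Nat.minFac_prime (by omega)
  have hrd : r ∣ p := Nat.minFac_dvd p
  have hr2 : r ≠ 2 := by
    intro h2
    rw [h2] at hrd
    exact hpodd hrd
  have hsq : r ^ 2 ≤ p := Nat.minFac_sq_le_self (by omega) hnp
  have : Fact r.Prime := ⟨hrp⟩
  set b : ZMod r := (a : ZMod r) ^ k with hb
  have h1 : b ^ 2 ^ (n - 1) = -1 := by
    have h2 : r ∣ a ^ (k * 2 ^ (n-1)) + 1 := hrd.trans h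
    have h3 : ((a ^ (k * 2 ^ (n-1)) + 1 : ℕ) : ZMod r) = 0 := (ZMod.natCast_eq_zero_iff _ _).mpr h2
    push_cast at h3
    rw [hb, ← pow_mul]
    exact eq_neg_of_add_eq_zero_left h3
  have hne : (-1 : ZMod r) ≠ 1 := by
    have : Fact (2 < r) := ⟨lt_of_le_of_ne hrp.two_le (Ne.symm hr2)⟩
    exact ZMod.neg_one_ne_one
  have hord : orderOf b = 2 ^ (n - 1 + 1) := by
    apply orderOf_eq_prime_pow (p := 2)
    · rw [h1]; exact hne
    · rw [pow_succ, pow_mul, h1]; norm_num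
  have hb0 : b ≠ 0 := by
    intro h0
    rw [h0, zero_pow (by positivity)] at h1
    have : (1 : ZMod r) = 0 := by
      have : (-1 : ZMod r) = 0 := h1.symm
      simpa using this
    exact one_ne_zero this
  have hdvd : orderOf b ∣ r - 1 := orderOf_dvd_of_pow_eq_one (ZMod.pow_card_sub_one_eq_one hb0)
  rw [hord, Nat.sub_add_cancel hn] at hdvd
  have hle : 2 ^ n ≤ r - 1 := Nat.le_of_dvd (by have := hrp.two_le; omega) hdvd
  have hle2 : 2 ^ n + 1 ≤ r := by have := hrp.two_le; omega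
  have : (2 ^ n + 1) ^ 2 ≤ p := (Nat.pow_le_pow_left hle2 2).trans hsq
  rw [hp] at this
  nlinarith [this, hk]

/-- the multiplier -/
def j : ℕ := 48289258637582268131593

lemma prime160 : ((3 * j ^ 2) * 2 ^ 160 + 1).Prime := by
  apply proth (3 * j ^ 2) 160 5 (by norm_num) (by norm_num [j]) (by norm_num [j])
  have h := pm_spec (3 * j ^ 2 * 2 ^ 160 + 1) 400 5 (3 * j ^ 2 * 2 ^ (160 - 1)) (by decide +kernel)
  have h2 : pm (3 * j ^ 2 * 2 ^ 160 + 1) 400 5 (3 * j ^ 2 * 2 ^ (160 - 1)) = 3 * j ^ 2 * 2 ^ 160 := by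
    decide +kernel
  rw [h2] at h
  have h3 : (3 * j ^ 2 * 2 ^ 160 + 1) ≡ 5 ^ (3 * j ^ 2 * 2 ^ (160 - 1)) + 1 [MOD (3 * j ^ 2 * 2 ^ 160 + 1)] :=
    h.add_right 1
  exact (Nat.modEq_zero_iff_dvd.mp (h3.symm.trans (by
    rw [Nat.modEq_zero_iff_dvd])))

/-- the covering primes -/
def cover : List ℕ := [5, 7, 11, 31, 73, 241, 151, 97, 673, 1321, 631, 23311]

lemma cover_ok : ∀ r < 360, ∃ q ∈ cover, (3 * j ^ 2 * 2 ^ (2 * r + 1) + 1) % q = 0 := by
  decide +kernel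

lemma cover_period : ∀ q ∈ cover, 2 ^ 720 % q = 1 ∧ 1 < q ∧ q < 3 * j ^ 2 := by
  decide +kernel

lemma odd_case (i : ℕ) : ¬ (3 * j ^ 2 * 2 ^ (2 * i + 1) + 1).Prime := by
  intro hprime
  obtain ⟨q, hq, hr⟩ := cover_ok (i % 360) (Nat.mod_lt _ (by norm_num))
  obtain ⟨hper, hq1, hq2⟩ := cover_period q hq
  have h1 : 2 ^ (2 * i + 1) ≡ 2 ^ (2 * (i % 360) + 1) [MOD q] := by
    have h720 : 2 ^ 720 ≡ 1 [MOD q] := by
      rw [Nat.ModEq, hper, Nat.mod_eq_of_lt hq1]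
    have : 2 * i + 1 = 720 * (i / 360) + (2 * (i % 360) + 1) := by
      have := Nat.div_add_mod i 360
      omega
    rw [this, pow_add, pow_mul]
    have h2 : (2 ^ 720) ^ (i / 360) ≡ 1 [MOD q] := by
      simpa using h720.pow (i / 360)
    simpa using h2.mul_right (2 ^ (2 * (i % 360) + 1))
  have h2 : 3 * j ^ 2 * 2 ^ (2 * i + 1) + 1 ≡ 3 * j ^ 2 * 2 ^ (2 * (i % 360) + 1) + 1 [MOD q] :=
    (h1.mul_left _).add_right 1
  have h3 : q ∣ 3 * j ^ 2 * 2 ^ (2 * i + 1) + 1 := by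
    apply Nat.dvd_of_mod_eq_zero
    rw [h2, hr]
  rcases (Nat.dvd_prime hprime).mp h3 with h | h
  · omega
  · have : 1 ≤ 2 ^ (2 * i + 1) := Nat.one_le_two_pow
    have h4 : 3 * j ^ 2 * 1 ≤ 3 * j ^ 2 * 2 ^ (2 * i + 1) := Nat.mul_le_mul_left _ this
    omega

lemma even_case (i m : ℕ) (hprime : (3 * j ^ 2 * 2 ^ (2 * i) + 1).Prime)
    (hdvd : (3 * j ^ 2 * 2 ^ (2 * i) + 1) ∣ 2 ^ 2 ^ m + 1) : False := by
  set p := 3 * j ^ 2 * 2 ^ (2 * i) + 1 with hp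
  have : Fact p.Prime := ⟨hprime⟩
  have h1 : (2 : ZMod p) ^ 2 ^ m = -1 := by
    have h3 : ((2 ^ 2 ^ m + 1 : ℕ) : ZMod p) = 0 := (ZMod.natCast_eq_zero_iff _ _).mpr hdvd
    push_cast at h3
    exact eq_neg_of_add_eq_zero_left h3
  have h2 : (2 : ZMod p) ^ 2 ^ (m + 1) = 1 := by
    rw [pow_succ, pow_mul, h1]; norm_num
  obtain ⟨u, c, hu⟩ : ∃ u c : ℕ, 3 * u = c * 2 ^ (m + 1) + 1 := by
    have h3 : 2 ^ (m+1) % 3 = 1 ∨ 2 ^ (m+1) % 3 = 2 := by
      have : ¬ 3 ∣ 2 ^ (m+1) := by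
        intro h
        have := Nat.Prime.dvd_of_dvd_pow Nat.prime_three h
        omega
      omega
    rcases h3 with h3 | h3
    · exact ⟨(2 * 2 ^ (m+1) + 1) / 3, 2, by omega⟩
    · exact ⟨(1 * 2 ^ (m+1) + 1) / 3, 1, by omega⟩
  have h3 : ((2 : ZMod p) ^ u) ^ 3 = 2 := by
    rw [← pow_mul, mul_comm, hu, pow_succ, mul_comm c, pow_mul, h2, one_pow, one_mul]
  refine Pool.Agent.H7CubicTwo.two_not_cube p ((j : ℤ) * 2 ^ i) ?_ ?_ _ h3
  · rw [hp]
    push_cast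
    ring
  · intro h
    rcases Int.prime_three.dvd_or_dvd h with h | h
    · norm_num [j] at h
    · have := Int.prime_three.dvd_of_dvd_pow h
      norm_num at this

/-- There is an odd `k ≥ 3` that is not a Sierpinski number such that no Fermat number
`2 ^ 2 ^ m + 1` has a prime factor of the form `k * 2 ^ n + 1` with `n ≥ 1`; hence it is false that
for every odd `k ≥ 3` that is not a Sierpinski number infinitely many Fermat numbers have such a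
prime factor. -/
theorem result :
    (∃ k : ℕ, Odd k ∧ 3 ≤ k ∧ (∃ n : ℕ, 1 ≤ n ∧ (k * 2 ^ n + 1).Prime) ∧
      ∀ m : ℕ, ¬ ∃ n : ℕ, 1 ≤ n ∧ (k * 2 ^ n + 1).Prime ∧ (k * 2 ^ n + 1) ∣ 2 ^ (2 ^ m) + 1) ∧
    ¬ (∀ k : ℕ, Odd k → 3 ≤ k → (∃ n : ℕ, 1 ≤ n ∧ (k * 2 ^ n + 1).Prime) →
      {m : ℕ | ∃ n : ℕ, 1 ≤ n ∧ (k * 2 ^ n + 1).Prime ∧
        (k * 2 ^ n + 1) ∣ 2 ^ (2 ^ m) + 1}.Infinite) := by
  have hodd : Odd (3 * j ^ 2) := by decide +kernel
  have h3 : 3 ≤ 3 * j ^ 2 := by norm_num [j]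
  have hns : ∃ n : ℕ, 1 ≤ n ∧ ((3 * j ^ 2) * 2 ^ n + 1).Prime := ⟨160, by norm_num, prime160⟩
  have hno : ∀ m : ℕ, ¬ ∃ n : ℕ, 1 ≤ n ∧ ((3 * j ^ 2) * 2 ^ n + 1).Prime ∧
      ((3 * j ^ 2) * 2 ^ n + 1) ∣ 2 ^ (2 ^ m) + 1 := by
    rintro m ⟨n, hn, hprime, hdvd⟩
    rcases Nat.even_or_odd' n with ⟨i, rfl | rfl⟩
    · exact even_case i m hprime hdvd
    · exact odd_case i hprime
  refine ⟨⟨3 * j ^ 2, hodd, h3, hns, hno⟩, ?_⟩
  intro H
  have := (H (3 * j ^ 2) hodd h3 hns).nonempty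
  obtain ⟨m, hm⟩ := this
  exact hno m hm

end Pool.Agent.Results.MP_74da6d_nt.CubicCover
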